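import Pool.Agent.H82.G4.Targets2
import Pool.Agent.H22.G4.Targets

/-!
Theorem G (MP_ee74d2_an), group G4: the induction on scales with four transversal functions, for
all `m` and `x` with `2 + x/2 < m x < 4`. The two-ends case `TENq m L x` is a hypothesis of the
broad part and of the recursion.
-/

set_option autoImplicit false

namespace Pool.Agent.H82.G4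

open MeasureTheory Set
open Pool.Agent.H83.G
open Pool.Agent.H22.G4 (nv Ind Bdx)
open scoped ENNReal NNReal RealInnerProductSpace

/-- the two-ends case with four transversal functions, for fixed `m`, `L`, `x` -/
def TENq (m L : ℕ) (x : ℝ) : Prop := ∀ (β : E m → ℂ) (Ψ : Z m → ℂ) (ψ : Z m → ℝ)
  (K c₀ δ ε₀ b₀ B : ℝ),
  IsPU β → IsPsi Ψ ψ → 1 ≤ K → 0 < c₀ → 0 < δ → δ ≤ 1 / 100 → 0 < ε₀ → ε₀ ≤ 1 / 4 → 0 < b₀ →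
  1 ≤ B → ∃ N₀ : ℕ, ∀ N : ℕ, N₀ ≤ N → ∃ C : ℝ, 1 ≤ C ∧
  ∀ (κ R A H En : ℝ) (G : Fin 4 → Z m → ℂ) (c : Fin 4 → E m) (z₀ : Z m)
  (S : Fin 4 → Finset (Pk m)) (a b : Fin 4 → ℝ) (l k : Fin 4 → ℕ) (QQ : Finset (Zi m)) (ν : ℝ)
  (X : Finset (Z m)), 0 ≤ κ → κ ≤ 3 / 8 → 1 ≤ R → C ≤ R ^ δ → 0 < A → 0 < H → b₀ * A ≤ R ^ δ * H →
  0 < En → (∀ i, Cls L κ R A (G i)) → (∀ i, ‖c i‖ ≤ 4 * m + 4) →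
  (∀ i j, i ≠ j → 4 / K ≤ ‖c i - c j‖) →
  (∀ η : Fin 4 → E m, (∀ i, ‖η i - c i‖ ≤ 2 / K) → Ind c₀ η) →
  Sep X → (∀ z ∈ X, ‖z - z₀‖ ≤ R) →
  (∀ i, ∀ W ∈ S i, W.1 ∈ Ks m (sR R) ∧ (∃ z, ‖z - z₀‖ ≤ R ∧ near R δ W z) ∧
    ‖ctr (sR R) W.1‖ ≤ 3 ∧ ‖ctr (sR R) W.1 - c i‖ ≤ 1 / K + sR R ∧
    a i ≤ al N β R δ (G i) W ∧ al N β R δ (G i) W ≤ 2 * a i) →
  (∀ i, ((S i).card : ℝ) ≤ B * R ^ (2 * ((m : ℝ) + 2))) →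
  (∀ i, 0 < a i ∧ 1 ≤ b i) →
  (∀ i, ∀ W ∈ S i, b i ≤ (((S i).filter (fun W' => tb R W' = tb R W)).card : ℝ) ∧
    (((S i).filter (fun W' => tb R W' = tb R W)).card : ℝ) ≤ 2 * b i) →
  (∀ i, ∑ W ∈ S i, al N β R δ (G i) W ^ 2 * R ^ (((m : ℝ) + 2) / 2) ≤ En) →
  En ≤ B * R ^ (lo m * δ) * (A ^ 2 * R ^ ((m : ℝ) + 2)) →
  0 < ν → ν * QQ.card ≤ R ^ δ * X.card →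
  (∀ q, ((X.filter (fun z => cb (Real.sqrt R) z = q)).card : ℝ) ≤ 2 * ν) →
  (∀ z ∈ X, cb (Real.sqrt R) z ∈ QQ) →
  (∀ q ∈ QQ, ‖Real.sqrt R • zc q - z₀‖ ≤ ((m : ℝ) + 2) * R) →
  (∀ i, C ≤ (2 : ℝ) ^ k i) →
  (∀ z ∈ X, ∀ i, H ≤ ‖∑ W ∈ SB QQ R (R ^ (1 - ε₀)) δ (l i) (k i) (S i)
    (bl R (R ^ (1 - ε₀)) (cb (Real.sqrt R) z)), Fp β ψ R δ (G i) W z‖) →
  (X.card : ℝ) * H ^ (2 + x) ≤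
    C * R ^ ((lb m - 1) * (δ + ε₀)) * A ^ x * R ^ (m * x / 2 - 1) * En

/-- TEN43: two ends for `m = 3`, `x = 8/9` -/
def T_TEN43 : Prop := ∀ L : ℕ, TENq 3 L (8 / 9)

/-- TEN42: two ends for `m = 2`, `x ≥ 4/3` -/
def T_TEN42 : Prop := ∀ (L : ℕ) (x : ℝ), 4 / 3 ≤ x → x ≤ 2 → TENq 2 L x

/-- BROq: the broad part in a ball of radius `R` -/
def T_BROq : Prop := ∀ (m L : ℕ) (x : ℝ) (β : E m → ℂ) (K c₀ δ ε₀ ε₁ b₀ : ℝ), 1 ≤ m → 0 < x →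
  x ≤ 4 → 2 < m * x → TENq m L x → 2 * m + 6 ≤ L →
  IsPU β → 1 ≤ K → 0 < c₀ → 0 < δ → δ ≤ 1 / 100 → 0 < ε₀ → ε₀ ≤ 1 / 4 → 0 < ε₁ → 0 < b₀ →
  ∃ C : ℝ, 1 ≤ C ∧ ∀ (κ R A H g : ℝ) (G : Fin 4 → Z m → ℂ) (c : Fin 4 → E m) (z₀ : Z m)
  (X : Finset (Z m)), 0 ≤ κ → κ ≤ 3 / 8 → C ≤ R → 0 < A → 0 < H → b₀ * A ≤ H → 1 ≤ g →
  (∀ i, Cls L κ R A (G i)) → (∀ i, ‖c i‖ ≤ 4 * m + 4) →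
  (∀ i, ∀ ζ, G i ζ ≠ 0 → ‖ζ.1⁻¹ • ζ.2.1 - c i‖ ≤ 1 / K) →
  (∀ i j, i ≠ j → 4 / K ≤ ‖c i - c j‖) →
  (∀ η : Fin 4 → E m, (∀ i, ‖η i - c i‖ ≤ 2 / K) → Ind c₀ η) →
  Sep X → (∀ z ∈ X, ‖z - z₀‖ ≤ R) → (∀ z ∈ X, ∀ i, H ≤ ‖TF (G i) z‖) →
  Bdx m L x (κ + C * R ^ (-δ)) (R ^ (1 - ε₀)) g →
  (X.card : ℝ) * H ^ (2 + x) ≤
    C * (R ^ (ε₁ + lb m * δ) * g + R ^ (lb m * (δ + ε₀))) * A ^ x * R ^ (m * x / 2 - 1) *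
      (∑ i, Er (m + 3) β R δ (G i) z₀).toReal

/-- CMD: pieces in caps, translated in space, stay in the class -/
def T_CMD : Prop := ∀ (m L : ℕ) (β : E m → ℂ) (K : ℝ), IsPU β → 1 ≤ K → ∃ C : ℝ, 1 ≤ C ∧
  ∀ (κ R A : ℝ) (G : Z m → ℂ) (k : Fin m → ℤ) (y : Z m), 0 ≤ κ → κ ≤ 1 / 2 → 1 ≤ R → 0 < A →
  k ∈ Ks m K⁻¹ → Cls L κ R A G →
  Cls L κ R (C * A) (fun ζ => e (ph y ζ) * (cp β (ctr K⁻¹ k) K⁻¹ ζ * G ζ)) ∧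
  (∀ z, TF (fun ζ => e (ph y ζ) * (cp β (ctr K⁻¹ k) K⁻¹ ζ * G ζ)) z = uk β K G k (z + y)) ∧
  ∫ ζ, ‖e (ph y ζ) * (cp β (ctr K⁻¹ k) K⁻¹ ζ * G ζ)‖ ^ 2 ≤ ∫ ζ, ‖G ζ‖ ^ 2

/-- W4: the four-broad part -/
def T_W4 : Prop := ∀ (m L : ℕ) (x : ℝ) (β : E m → ℂ) (K c₀ δ ε₀ ε₁ C₃ : ℝ), 1 ≤ m → 0 < x →
  x ≤ 4 → 2 < m * x → TENq m L x → 2 * m + 6 ≤ L →
  IsPU β → 1 ≤ K → 0 < c₀ → 0 < δ → δ ≤ 1 / 100 → 0 < ε₀ → ε₀ ≤ 1 / 4 → 0 < ε₁ →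
  ∃ C : ℝ, 1 ≤ C ∧ ∀ (κ R A g : ℝ) (G : Z m → ℂ) (k : Fin 4 → Fin m → ℤ) (y : Fin 4 → Z m)
  (Y : Finset (Z m)), 0 ≤ κ → κ ≤ 3 / 8 → C ≤ R → 0 < A → 1 ≤ g →
  Bdx m L x (κ + C * R ^ (-δ)) (R ^ (1 - ε₀)) g → Cls L κ R A G → (∀ i, k i ∈ Ks m K⁻¹) →
  (∀ i j, i ≠ j → 4 / K ≤ ‖ctr K⁻¹ (k i) - ctr K⁻¹ (k j)‖) →
  (∀ η : Fin 4 → E m, (∀ i, ‖η i - ctr K⁻¹ (k i)‖ ≤ 2 / K) → Ind c₀ η) →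
  (∀ i, ‖y i‖ ≤ C₃) → Sep Y →
  ∑ z ∈ Y, (⨅ i, ‖uk β K G (k i) (z + y i)‖ₑ) ^ (2 + x) ≤
    ENNReal.ofReal (C * (R ^ (ε₁ + 2 * lb m * δ) * g + R ^ (2 * lb m * (δ + ε₀))) * A ^ x *
      R ^ (m * x / 2 - 1) * ∫ ζ, ‖G ζ‖ ^ 2)

/-- BASs: the trivial bound, strong form -/
def T_BASs : Prop := ∀ (m L : ℕ) (x : ℝ), 1 ≤ m → 0 < x → x ≤ 4 → ∃ C : ℝ, 0 < C ∧
  ∀ κ R : ℝ, 0 ≤ κ → κ ≤ 1 / 2 → 1 ≤ R → Bds m L x κ R (C * R)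

/-- REC4: the recursion -/
def T_REC4 : Prop := ∀ (m L : ℕ) (x : ℝ), 1 ≤ m → 0 < x → 2 + x / 2 < m * x → m * x < 4 →
  TENq m L x → 2 * m + 6 ≤ L → ∃ C₁ γ : ℝ, 0 < C₁ ∧ 0 < γ ∧
  ∀ K₁ : ℝ, 1 ≤ K₁ → ∃ C₂ K₀ : ℝ, 0 < C₂ ∧ K₁ ≤ K₀ ∧ ∀ K : ℝ, K₀ ≤ K →
  ∀ (δ ε₀ ε₁ : ℝ), 0 < δ → δ ≤ 1 / 100 → 0 < ε₀ → ε₀ ≤ 1 / 4 → 0 < ε₁ →
  ∃ C₄ : ℝ, 1 ≤ C₄ ∧ ∀ (κ R g₁ g₂ g₃ : ℝ), 0 ≤ κ → κ ≤ 3 / 8 → C₄ ≤ R → 0 ≤ g₁ → 0 ≤ g₂ →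
  1 ≤ g₃ → Bds m L x κ (R / K₁ ^ 2) g₁ → Bds m L x κ (R / K ^ 2) g₂ →
  Bds m L x (κ + C₄ * R ^ (-δ)) (R ^ (1 - ε₀)) g₃ →
  Bds m L x κ R (C₁ * K₁ ^ (2 - m * x) * g₁ + C₂ * K ^ (-γ) * g₂ +
    C₄ * R ^ (ε₁ + 2 * lb m * δ) * g₃ + C₄ * R ^ (2 * lb m * (δ + ε₀)))

/-- MAIN4: all scales -/
def T_MAIN4 : Prop := ∀ (m L : ℕ) (x ε : ℝ), 1 ≤ m → 0 < x → 2 + x / 2 < m * x → m * x < 4 →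
  TENq m L x → 2 * m + 6 ≤ L → 0 < ε → ∃ C : ℝ, 0 < C ∧
  ∀ R : ℝ, 1 ≤ R → Bds m L x (1 / 4) R (C * R ^ ε)

end Pool.Agent.H82.G4
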