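import Pool.Agent.H82.G4.Targets3
import Pool.Agent.H22.G4.REC

/-!
Theorem G (MP_ee74d2_an), group G4: the recursion with four transversal functions (REC4).
-/

set_option autoImplicit false

namespace Pool.Agent.H82.G4.REC4

open MeasureTheory Set
open Pool.Agent.H83.G Pool.Agent.H82.G4
open Pool.Agent.H22.G4 (nv Ind Bdx T_IN1 T_IN2)
open scoped ENNReal NNReal RealInnerProductSpace

/-- the strong form implies the level set form -/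
theorem bdx_of_bds {m L : ℕ} {x κ R g : ℝ} (hx : 0 < x) (hR : 0 ≤ R) (hg : 0 ≤ g)
    (h : Bds m L x κ R g) : Bdx m L x κ R g := by
  intro A H G X hA hH hG hX hz
  have h1 : 0 ≤ ∫ ζ, ‖G ζ‖ ^ 2 := integral_nonneg fun ζ => by positivity
  have h0 : 0 ≤ g * A ^ x * R ^ (m * x / 2 - 1) * ∫ ζ, ‖G ζ‖ ^ 2 := by positivity
  refine (ENNReal.ofReal_le_ofReal_iff h0).1 ?_
  calc ENNReal.ofReal ((X.card : ℝ) * H ^ (2 + x))
      = ∑ z ∈ X, ENNReal.ofReal (H ^ (2 + x)) := by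
        rw [Finset.sum_const, nsmul_eq_mul, ENNReal.ofReal_mul (by positivity),
          ENNReal.ofReal_natCast]
    _ ≤ ∑ z ∈ X, ‖TF G z‖ₑ ^ (2 + x) := by
        refine Finset.sum_le_sum fun z hzX => ?_
        rw [← ENNReal.ofReal_rpow_of_pos hH]
        refine ENNReal.rpow_le_rpow ?_ (by linarith)
        rw [← ofReal_norm]
        exact ENNReal.ofReal_le_ofReal (hz z hzX)
    _ ≤ SX (2 + x) (TF G) := by
        unfold SX
        exact le_iSup₂_of_le X hX le_rfl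
    _ ≤ _ := h A G hA hG

private theorem ind_mono {m j : ℕ} {c c' : ℝ} {η : Fin j → E m} (h : c' ≤ c) (hI : Ind c η) :
    Ind c' η := by
  intro a
  refine le_trans ?_ (hI a)
  exact mul_le_mul_of_nonneg_right h (Finset.sum_nonneg fun _ _ => abs_nonneg _)

/-- REC4: the recursion -/
theorem pf_REC4 (hNB : T_NB4x) (hW4 : T_W4) (hPUX : T_PUX) (hIN1 : T_IN1) (hIN2 : T_IN2) :
    T_REC4 := by
  intro m L x hm hx0 hx1 hx2 hTEN hL
  have hm1 : (1 : ℝ) ≤ m := by exact_mod_cast hm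
  have hx4 : x ≤ 4 := by nlinarith
  obtain ⟨β, hβ⟩ := hPUX m
  obtain ⟨C₁, γ, τ, hC₁, hγ, hτ, hτ1, hnb⟩ := hNB m L x β hm hx0 hx1 hx2 hβ
  refine ⟨C₁, γ, hC₁, hγ, fun K₁ hK₁ => ?_⟩
  obtain ⟨C₂, K₀, hC₂, hK₀, hnb⟩ := hnb K₁ hK₁
  set B : ℝ := 4 * m + 6 with hB
  have hB0 : 0 < B := by rw [hB]; linarith
  obtain ⟨K₀', hK₀', hD⟩ : ∃ K₀' : ℝ, K₀ ≤ K₀' ∧ ∀ K : ℝ, K₀' ≤ K → 16 * (B + 1) ≤ K ^ τ := by
    have h := (tendsto_rpow_atTop hτ).eventually_ge_atTop (16 * (B + 1))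
    obtain ⟨a, ha⟩ := Filter.eventually_atTop.1 h
    exact ⟨max K₀ a, le_max_left _ _, fun K hK => ha K ((le_max_right _ _).trans hK)⟩
  refine ⟨C₂, K₀', hC₂, hK₀.trans hK₀', fun K hK δ ε₀ ε₁ hδ hδ1 hε₀ hε₀1 hε₁ => ?_⟩
  have hK1 : 1 ≤ K := hK₁.trans (hK₀.trans (hK₀'.trans hK))
  have hK0 : 0 < K := by linarith
  have hKτ := hD K hK
  obtain ⟨C₃, hC₃, hnb⟩ := hnb K (hK₀'.trans hK)
  set c₀ : ℝ := K ^ (τ - 1) / 2 with hc₀
  have hKt : K ^ (τ - 1) = K ^ τ / K := by rw [Real.rpow_sub hK0, Real.rpow_one]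
  have hc0p : 0 < c₀ := by positivity
  obtain ⟨C, hC, hw⟩ := hW4 m L x β K c₀ δ ε₀ ε₁ C₃ hm hx0 hx4 (by linarith) hTEN hL hβ hK1
    hc0p hδ hδ1 hε₀ hε₀1 hε₁
  have hC0 : 0 < C := by linarith
  have hC₃0 : 0 < C₃ := by linarith
  have hCC : 0 < C₃ * C := by positivity
  refine ⟨C₃ * C + C + K ^ 2, by nlinarith [sq_nonneg K], ?_⟩
  set C₄ : ℝ := C₃ * C + C + K ^ 2 with hC₄
  have hK2 : 0 < K ^ 2 := by positivity
  intro κ R g₁ g₂ g₃ hκ0 hκ hR hg₁ hg₂ hg₃ hB₁ hB₂ hB₃ A G hA hG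
  have hKR : K ^ 2 ≤ R := by linarith
  have hCR : C ≤ R := by linarith
  have hR1 : 1 ≤ R := hC.trans hCR
  have hR0 : 0 < R := by linarith
  have hI0 : 0 ≤ ∫ ζ, ‖G ζ‖ ^ 2 := integral_nonneg fun ζ => by positivity
  have hBx : Bdx m L x (κ + C * R ^ (-δ)) (R ^ (1 - ε₀)) g₃ := by
    refine Pool.Agent.H22.G4.REC.Bdx_mono ?_ (by positivity)
      (bdx_of_bds hx0 (by positivity) (by linarith) hB₃)
    have : C * R ^ (-δ) ≤ C₄ * R ^ (-δ) :=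
      mul_le_mul_of_nonneg_right (by linarith) (by positivity)
    linarith
  have key := hnb κ R A g₁ g₂ G (ENNReal.ofReal (C * (R ^ (ε₁ + 2 * lb m * δ) * g₃ +
    R ^ (2 * lb m * (δ + ε₀))) * A ^ x * R ^ (m * x / 2 - 1) * ∫ ζ, ‖G ζ‖ ^ 2)) hκ0 hκ hKR hA
    hg₁ hg₂ hB₁ hB₂ hG ?_
  · refine key.trans ?_
    rw [← ENNReal.ofReal_mul hC₃0.le, ← ENNReal.ofReal_add (by positivity) (by positivity)]
    refine ENNReal.ofReal_le_ofReal ?_
    have h1 : C₃ * C * (R ^ (ε₁ + 2 * lb m * δ) * g₃ + R ^ (2 * lb m * (δ + ε₀))) ≤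
        C₄ * (R ^ (ε₁ + 2 * lb m * δ) * g₃ + R ^ (2 * lb m * (δ + ε₀))) :=
      mul_le_mul_of_nonneg_right (by linarith) (by positivity)
    have h2 : 0 ≤ A ^ x * R ^ (m * x / 2 - 1) * ∫ ζ, ‖G ζ‖ ^ 2 := by positivity
    calc _ = (C₁ * K₁ ^ (2 - m * x) * g₁ + C₂ * K ^ (-γ) * g₂ +
          C₃ * C * (R ^ (ε₁ + 2 * lb m * δ) * g₃ + R ^ (2 * lb m * (δ + ε₀)))) *
          (A ^ x * R ^ (m * x / 2 - 1) * ∫ ζ, ‖G ζ‖ ^ 2) := by ring
      _ ≤ (C₁ * K₁ ^ (2 - m * x) * g₁ + C₂ * K ^ (-γ) * g₂ +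
          C₄ * (R ^ (ε₁ + 2 * lb m * δ) * g₃ + R ^ (2 * lb m * (δ + ε₀)))) *
          (A ^ x * R ^ (m * x / 2 - 1) * ∫ ζ, ‖G ζ‖ ^ 2) :=
        mul_le_mul_of_nonneg_right (by linarith) h2
      _ = _ := by ring
  · intro k hk hInd y hy Y hY
    have hn : ∀ i, ‖ctr K⁻¹ (k i)‖ ≤ 4 * m + 4 := fun i =>
      Pool.Agent.H90.G.ctr_norm_le K hK1 (k i) (hk i)
    refine hw κ R A g₃ G k y Y hκ0 hκ hCR hA hg₃ hBx hG hk ?_ ?_ hy hY
    · intro i j hij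
      have h1 := hIN2 m 4 (K ^ (τ - 1)) B (fun i => ctr K⁻¹ (k i)) hB0.le
        (fun i => (hn i).trans (by rw [hB]; linarith)) hInd i j hij
      refine le_trans ?_ h1
      rw [hKt, div_div, div_le_div_iff₀ hK0 (by positivity)]
      nlinarith
    · intro η hη
      have h2K : 2 / K ≤ 2 := by
        rw [div_le_iff₀ hK0]; linarith
      have h1 := hIN1 m 4 (K ^ (τ - 1)) B (2 / K) (fun i => ctr K⁻¹ (k i)) η hB0.le
        (by positivity) (fun i => (hn i).trans (by rw [hB]; linarith))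
        (fun i => by
          calc ‖η i‖ = ‖(η i - ctr K⁻¹ (k i)) + ctr K⁻¹ (k i)‖ := by rw [sub_add_cancel]
            _ ≤ ‖η i - ctr K⁻¹ (k i)‖ + ‖ctr K⁻¹ (k i)‖ := norm_add_le _ _
            _ ≤ 2 + (4 * m + 4) := add_le_add ((hη i).trans h2K) (hn i)
            _ ≤ B := by rw [hB]; linarith)
        (fun i => by rw [norm_sub_rev]; exact hη i) hInd
      refine ind_mono ?_ h1
      rw [hc₀, hKt]
      have h3 : (2 * B + 1) * (2 / K) ≤ K ^ τ / K / 2 := by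
        rw [div_div, mul_div_assoc', div_le_div_iff₀ hK0 (by positivity)]
        nlinarith
      linarith

end Pool.Agent.H82.G4.REC4
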