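import Pool.Agent.H83.G.Chain
import Pool.Agent.H93.BD.All
import Pool.Agent.H68.G.GBE
import Pool.Agent.H22.G4.BROQ
import Pool.Agent.H22.G4.OEN
import Pool.Agent.H22.G4.TEJ
import Pool.Agent.H22.G4.LWJ
import Pool.Agent.H22.G4.ALG4
import Pool.Agent.H94.G4.TenJ
import Pool.Agent.H94.G4.TE1
import Pool.Agent.H33.G4.BASs
import Pool.Agent.H3.G4.CMD
import Pool.Agent.H3.G4.W4
import Pool.Agent.H69.G4.DCL
import Pool.Agent.H60.G4.GE1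
import Pool.Agent.H59.G4.GE2
import Pool.Agent.H60.G4.GE3
import Pool.Agent.H34.G4.GEOx
import Pool.Agent.H34.G4.SXK
import Pool.Agent.H13.G4.NRS
import Pool.Agent.H5.G4.PTA
import Pool.Agent.H5.G4.PTC
import Pool.Agent.H5.G4.QNT
import Pool.Agent.H59.G4.PTB
import Pool.Agent.H45.G4.SIG
import Pool.Agent.H45.G4.SXN
import Pool.Agent.H65.G4.SXB
import Pool.Agent.H65.G4.SXF
import Pool.Agent.H1.G4.SXI
import Pool.Agent.H82.G4.NB4x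
import Pool.Agent.H82.G4.REC4

/-! Theorem G (MP_ee74d2_an) for `d = 3, 4`: the chain. -/

set_option autoImplicit false

namespace Pool.Agent.H82.G4.Chain

open Pool.Agent.H83.G Pool.Agent.H82.G4 Pool.Agent.H83.G.Chain

theorem k_GBE : T_GBE :=
  Pool.Agent.H68.G.GBE.pf_GBE m_PKT m_PLN m_PTW m_WT3 m_PUS m_LOI m_SCH

theorem k_RDA : T_RDA := m_RDA Pool.Agent.H93.BD.All.main

theorem k_RDP : T_RDP := m_RDP Pool.Agent.H93.BD.All.main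

theorem k_OEN : Pool.Agent.H22.G4.T_OENx :=
  Pool.Agent.H22.G4.OEN.pf_OENx m_SSC k_GBE m_AMU m_PLN

theorem k_BRO : T_BROq :=
  Pool.Agent.H22.G4.BROQ.pf_BROq m_DCP m_TLS m_AMU m_AEN m_ENB m_PG1 m_PG2 m_PG3 k_OEN m_PSX
    m_LWX m_CBN m_WT3

theorem k_SXB : T_SXB := Pool.Agent.H65.G4.SXB.pf_SXB

theorem k_SXF : T_SXF := Pool.Agent.H65.G4.SXF.pf_SXF k_SXB m_WT1 m_WT3

theorem k_SXI : T_SXI := Pool.Agent.H1.G4.SXI.pf_SXI k_SXB m_WT3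

theorem k_SXK : T_SXK := Pool.Agent.H34.G4.SXK.pf_SXK m_KER m_PUB m_WT2 m_SCH

theorem k_SXN : T_SXN := Pool.Agent.H45.G4.SXN.pf_SXN m_SCH m_WT1 m_WT3

theorem k_SIG : T_SIG := Pool.Agent.H45.G4.SIG.pf_SIG m_KER m_PUB m_PUS m_CPS m_WT2

theorem k_DCL : T_DCL :=
  Pool.Agent.H69.G4.DCL.pf_DCL k_RDA m_MOD m_LWX m_LOA m_CPS m_SCH m_WT1 m_WT3

theorem k_NRS : T_NRS :=
  Pool.Agent.H13.G4.NRS.pf_NRS k_SXB m_RSC m_PUB m_PUS m_LOA m_LOB m_LOI m_WT3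

theorem k_QNT : T_QNT := Pool.Agent.H5.G4.QNT.pf_QNT m_IVZ m_SCH m_WT1 m_WT2 m_WT3

theorem k_PTA : T_PTA := Pool.Agent.H5.G4.PTA.pf_PTA k_SIG k_SXB m_PUS m_CBN m_CPS m_SCH m_WT3

theorem k_PTB : T_PTB :=
  Pool.Agent.H59.G4.pf_PTB k_DCL m_SPW k_SXI k_SXB m_PUS m_CBN m_CPS m_SCH m_WT1 m_WT3

theorem k_PTC : T_PTC :=
  Pool.Agent.H5.G4.PTC.pf_PTC k_QNT k_SXF k_SXK m_PUS m_CBN m_CPS m_WT3

theorem k_GEO : T_GEOx :=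
  Pool.Agent.H34.G4.GEOx.pf_GEOx Pool.Agent.H60.G4.GE1.pf_GE1 Pool.Agent.H59.G4.pf_GE2
    (Pool.Agent.H60.G4.GE3.pf_GE3 m_PUS) m_PUS

theorem k_NB4 : T_NB4x := NB4x.pf_NB4x k_PTA k_PTB k_PTC k_NRS k_GEO k_SXN

theorem k_CMD : T_CMD := Pool.Agent.H3.G4.CMD.pf_CMD m_CPC

theorem k_W4 : T_W4 :=
  Pool.Agent.H3.G4.W4.pf_W4 k_BRO k_CMD m_ENS m_SPK m_SPW m_PLN m_WT3

theorem k_BAS : T_BASs := Pool.Agent.H33.G4.pf_BASs m_SPK m_SPW m_PUX m_PLN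

theorem k_REC : T_REC4 :=
  REC4.pf_REC4 k_NB4 k_W4 m_PUX Pool.Agent.H22.G4.pf_IN1 Pool.Agent.H22.G4.pf_IN2

theorem k_TE1 : Pool.Agent.H94.G4.T_TE1x := Pool.Agent.H94.G4.pf_TE1x k_RDP m_MSB m_PTW m_CBN

theorem k_TEJ : Pool.Agent.H22.G4.T_TEJ :=
  Pool.Agent.H22.G4.pf_TEJ Pool.Agent.H22.G4.pf_LWJ m_CBN

theorem k_TEN43 : T_TEN43 :=
  Pool.Agent.H94.G4.pf_TEN43 Pool.Agent.H22.G.pf_PG4 Pool.Agent.H22.G.pf_HG2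
    Pool.Agent.H22.G.pf_MU Pool.Agent.H22.G.pf_HB m_CBN k_TE1 m_TE2 k_TEJ m_TLS m_AMU
    Pool.Agent.H22.G4.pf_ALG4

end Pool.Agent.H82.G4.Chain
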