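import Pool.Agent.H22.G4.TargetsJ

/-!
Theorem G (MP_ee74d2_an), group G4: definitions for the narrow side of the four-broad argument
(`m = 3`, dimension `d = 4`).
-/

set_option autoImplicit false

namespace Pool.Agent.H82.G4

open MeasureTheory Set
open Pool.Agent.H83.G
open scoped ENNReal NNReal RealInnerProductSpace

section

variable {m : ℕ}

/-- the largest `ℓ^P` sum of `f` over `1`-separated finite sets -/
noncomputable def SX (P : ℝ) (f : Z m → ℂ) : ℝ≥0∞ :=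
  ⨆ (X : Finset (Z m)) (_ : Sep X), ∑ z ∈ X, ‖f z‖ₑ ^ P

/-- the supremum of `|f|` on the cell `j` of size `K²` -/
noncomputable def Mj (K : ℝ) (f : Z m → ℂ) (j : Zi m) : ℝ≥0∞ :=
  ⨆ (z : Z m) (_ : ‖K⁻¹ ^ 2 • z - zc j‖ ≤ (m : ℝ) + 1), ‖f z‖ₑ

/-- the weighted supremum of `|f|` at distance at least `D K²` from the cell `j` -/
noncomputable def aw (N : ℕ) (K D : ℝ) (f : Z m → ℂ) (j : Zi m) : ℝ≥0∞ :=
  ⨆ (z : Z m) (_ : D ≤ ‖K⁻¹ ^ 2 • z - zc j‖), ‖f z‖ₑ * ENNReal.ofReal (wt N (K⁻¹ ^ 2 • z - zc j))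

/-- the piece of `TF G` of the cap `k` of radius `1/K` -/
noncomputable def uk (β : E m → ℂ) (K : ℝ) (G : Z m → ℂ) (k : Fin m → ℤ) : Z m → ℂ :=
  TP β (ctr K⁻¹ k) K⁻¹ G

open scoped Classical in
/-- the significant caps of the cell `j` -/
noncomputable def Sg (β : E m → ℂ) (N : ℕ) (K : ℝ) (G : Z m → ℂ) (j : Zi m) :
    Finset (Fin m → ℤ) :=
  (Ks m K⁻¹).filter fun k =>
    ENNReal.ofReal ((K ^ (4 * m + 8))⁻¹) * Mj K (TF G) j ≤ aw N K 0 (uk β K G k) j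

end

/-- the estimate at scale `R` with constant `g`, strong form -/
def Bds (m L : ℕ) (x κ R g : ℝ) : Prop :=
  ∀ (A : ℝ) (G : Z m → ℂ), 0 < A → Cls L κ R A G →
    SX (2 + x) (TF G) ≤ ENNReal.ofReal (g * A ^ x * R ^ (m * x / 2 - 1) * ∫ ζ, ‖G ζ‖ ^ 2)

end Pool.Agent.H82.G4
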