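import Pool.Agent.H82.G4.Chain4
import Pool.Agent.H82.G4.MAIN4
import Pool.Agent.H81.GT.AllX
import Pool.Agent.H48.G.GL2

/-! Theorem G (MP_ee74d2_an) for `d = 4` (and the interface for `d = 3`). -/

set_option autoImplicit false

namespace Pool.Agent.H82.G4.Fin4

open Pool.Agent.H83.G Pool.Agent.H82.G4 Pool.Agent.H83.G.Chain Pool.Agent.H81.GT

theorem k_MAIN : T_MAIN4 := MAIN4.pf_MAIN4 Chain.k_REC Chain.k_BAS

/-- the level set estimate at all scales, from the two-ends case -/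
theorem mainx {m : ℕ} {x : ℝ} (hm : 1 ≤ m) (hx : 0 < x) (h1 : 2 + x / 2 < m * x)
    (h2 : m * x < 4) (hT : ∀ L : ℕ, TENq m L x) : MAINx m x := by
  intro ε hε
  obtain ⟨C, hC, h⟩ := k_MAIN m (2 * m + 6) x ε hm hx h1 h2 (hT _) le_rfl hε
  refine ⟨2 * m + 6, C, le_rfl, hC, fun R hR => ?_⟩
  have hR0 : 0 < R := by linarith
  exact REC4.bdx_of_bds hx hR0.le (by positivity) (h R hR)

/-- Q1 for `d = 4`, `p ≥ 26/9` -/
theorem q1_3 {p : ℝ} (hp : 2 + 8 / 9 ≤ p) : Q1at 3 p :=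
  all_q1x (Pool.Agent.H48.G.pf_GL2 Pool.Agent.H56.G.COV.pf_COV) m_SPK m_PUX m_SCH m_WM m_AVG
    m_LOA m_LOB (by norm_num) (by norm_num)
    (mainx (m := 3) (x := 8 / 9) (by norm_num) (by norm_num) (by norm_num) (by norm_num)
      Chain.k_TEN43) hp

end Pool.Agent.H82.G4.Fin4
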