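import Pool.Agent.H82.G4.Targets2

/-!
Theorem G (MP_ee74d2_an), group G4: the narrow part, assembly for all `m` (NB4x).
-/

set_option autoImplicit false

namespace Pool.Agent.H82.G4.NB4x

open MeasureTheory Set
open Pool.Agent.H83.G Pool.Agent.H82.G4
open Pool.Agent.H22.G4 (nv Ind)
open scoped ENNReal NNReal RealInnerProductSpace

private lemma supp1 {m : ℕ} {κ R : ℝ} {ζ : Z m} (hκ : κ ≤ 3 / 8) (h : ζ ∈ Rg m κ R⁻¹) :
    1 / 2 ≤ ζ.1 ∧ ζ.1 ≤ 6 ∧ ‖ζ.2.1‖ ≤ 3 / 2 * ζ.1 := by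
  obtain ⟨h1, h2, h3, -⟩ := h
  have : 0 ≤ ζ.1 := by linarith
  refine ⟨by linarith, by linarith, h3.trans ?_⟩
  nlinarith

private lemma supp2 {m : ℕ} {κ R : ℝ} {ζ : Z m} (hκ0 : 0 ≤ κ) (hκ : κ ≤ 3 / 8) (hR : 1 ≤ R)
    (h : ζ ∈ Rg m κ R⁻¹) : 1 / 2 ≤ ζ.1 ∧ ζ.1 ≤ 6 ∧ ‖ζ‖ ≤ 10 := by
  obtain ⟨h1, h2, h3, h4⟩ := h
  have h0 : 5 / 8 ≤ ζ.1 := by linarith
  have hζ : ζ.1 ≤ 35 / 8 := by linarith
  have h3' : ‖ζ.2.1‖ ≤ 11 / 8 * ζ.1 := h3.trans (by nlinarith)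
  have hy : ‖ζ.2.1‖ ^ 2 / ζ.1 ≤ 121 / 64 * ζ.1 := by
    rw [div_le_iff₀ (by linarith)]
    have := norm_nonneg ζ.2.1
    nlinarith
  have hy0 : 0 ≤ ‖ζ.2.1‖ ^ 2 / ζ.1 := by positivity
  have hRi : R⁻¹ ≤ 1 := inv_le_one_of_one_le₀ hR
  have hRi0 : 0 ≤ R⁻¹ := by positivity
  have h4' : |ζ.2.2 - ‖ζ.2.1‖ ^ 2 / ζ.1| ≤ 11 / 8 := h4.trans (by nlinarith)
  rw [abs_le] at h4'
  refine ⟨by linarith, by linarith, ?_⟩
  rw [Prod.norm_def, Prod.norm_def]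
  refine max_le ?_ (max_le ?_ ?_)
  · rw [Real.norm_eq_abs, abs_le]; constructor <;> linarith
  · linarith
  · rw [Real.norm_eq_abs, abs_le]; constructor <;> linarith [h4'.1, h4'.2]

private lemma absorb {F a : ℝ≥0∞} (hF : F < ⊤) (h : F ≤ a + ENNReal.ofReal (1 / 2) * F) :
    F ≤ 2 * a := by
  have hh : ENNReal.ofReal (1 / 2) * F ≠ ⊤ := ENNReal.mul_ne_top ENNReal.ofReal_ne_top hF.ne
  have h2 : ENNReal.ofReal (1 / 2) * F + ENNReal.ofReal (1 / 2) * F = F := by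
    rw [← add_mul, ← ENNReal.ofReal_add (by norm_num) (by norm_num)]
    norm_num
  have h3 : ENNReal.ofReal (1 / 2) * F ≤ a := by
    have h4 : ENNReal.ofReal (1 / 2) * F + ENNReal.ofReal (1 / 2) * F ≤
        a + ENNReal.ofReal (1 / 2) * F := h2.le.trans h
    exact (ENNReal.add_le_add_iff_right hh).1 h4
  calc F = ENNReal.ofReal (1 / 2) * F + ENNReal.ofReal (1 / 2) * F := h2.symm
    _ ≤ a + a := add_le_add h3 h3
    _ = 2 * a := (two_mul a).symm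

open scoped Classical in
theorem pf_NB4x (hPTA : T_PTA) (hPTB : T_PTB) (hPTC : T_PTC) (hNRS : T_NRS) (hGEO : T_GEOx)
    (hSXN : T_SXN) : T_NB4x := by
  intro m L x β hm hx0 hx1 hx2 hβ
  have hm0 : (0 : ℝ) < m := by exact_mod_cast hm
  set γ : ℝ := (m * x - x / 2 - 2) / 2 with hγ
  have hγ0 : 0 < γ := by rw [hγ]; linarith
  set τ : ℝ := γ / (m * x) with hτ
  have hmx : 0 < m * x := by positivity
  have hτ0 : 0 < τ := by positivity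
  have hτ1 : τ < 1 := by
    rw [hτ, div_lt_one hmx, hγ]; linarith
  have hτm : m * τ * x = γ := by
    rw [hτ]; field_simp
  obtain ⟨N₀, hN₀⟩ := hPTC m 4 (2 + x) β hm (by linarith) hβ
  set N := max N₀ (m + 3) with hN
  obtain ⟨Cc, hCc, hc⟩ := hN₀ N (le_max_left _ _)
  obtain ⟨Ca, hCa, ha⟩ := hPTA m N (2 + x) β hm (by linarith) hβ
  obtain ⟨Cb, hCb, hb⟩ := hPTB m N (2 + x) (γ / 2) β hm
    (le_max_right N₀ (m + 3)) (by linarith) (by linarith) (by linarith) hβ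
  obtain ⟨Cn, hCn, hn⟩ := hNRS m L x β hm hx0 hβ
  refine ⟨2 * Ca * Cn, γ, τ, by positivity, hγ0, hτ0, hτ1, fun K₁ hK₁ => ?_⟩
  obtain ⟨K₀, hK₀, hg⟩ := hGEO m τ K₁ hm hτ0 hτ1 hK₁
  refine ⟨2 * Cb * Cn, max (max K₀ K₁) (2 * (Ca + Cb + Cc) + 1), by positivity,
    (le_max_right _ _).trans (le_max_left _ _), fun K hK => ?_⟩
  have hKK0 : K₀ ≤ K := (le_max_left _ _).trans ((le_max_left _ _).trans hK)
  have hKK1 : K₁ ≤ K := (le_max_right _ _).trans ((le_max_left _ _).trans hK)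
  have hKC : 2 * (Ca + Cb + Cc) + 1 ≤ K := (le_max_right _ _).trans hK
  have hK1 : 1 ≤ K := hK₁.trans hKK1
  have hK0 : 0 < K := by linarith
  obtain ⟨C₃, hC₃, hc3⟩ := hc K hK1
  refine ⟨2 * C₃, by linarith, ?_⟩
  intro κ R A g₁ g₂ G W hκ0 hκ hKR hA hg₁ hg₂ hB₁ hB₂ hG hW
  have hR1 : 1 ≤ R := le_trans (by nlinarith) hKR
  have hTC : TC G := hG.1
  have hsup : ∀ ζ, G ζ ≠ 0 → ζ ∈ Rg m κ R⁻¹ := hG.2.1
  have hs1 : ∀ ζ, G ζ ≠ 0 → 1 / 2 ≤ ζ.1 ∧ ζ.1 ≤ 6 ∧ ‖ζ.2.1‖ ≤ 3 / 2 * ζ.1 :=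
    fun ζ hζ => supp1 hκ (hsup ζ hζ)
  have hs2 : ∀ ζ, G ζ ≠ 0 → 1 / 2 ≤ ζ.1 ∧ ζ.1 ≤ 6 ∧ ‖ζ‖ ≤ 10 :=
    fun ζ hζ => supp2 hκ0 hκ hR1 (hsup ζ hζ)
  set F := SX (2 + x) (TF G) with hF
  have hFt : F < ⊤ := hSXN m (2 + x) G (by linarith) hTC
  set I : ℝ := A ^ x * R ^ (m * x / 2 - 1) * ∫ ζ, ‖G ζ‖ ^ 2 with hI
  have hI0 : 0 ≤ I := by
    have : 0 ≤ ∫ ζ, ‖G ζ‖ ^ 2 := integral_nonneg fun _ => by positivity
    positivity
  set S₁ := ∑ k ∈ Ks m K₁⁻¹, SX (2 + x) (uk β K₁ G k) with hS₁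
  set S₂ := ∑ k ∈ Ks m K⁻¹, SX (2 + x) (uk β K G k) with hS₂
  have hK₁R : K₁ ^ 2 ≤ R := le_trans (by nlinarith) hKR
  have hn1 : S₁ ≤ ENNReal.ofReal (Cn * K₁ ^ (2 - m * x) * g₁ * I) := by
    refine (hn K₁ κ R A g₁ G hK₁ hκ0 (by linarith) hK₁R hA hg₁ hB₁ hG).trans (le_of_eq ?_)
    rw [hI]; ring_nf
  have hn2 : S₂ ≤ ENNReal.ofReal (Cn * K ^ (2 - m * x) * g₂ * I) := by
    refine (hn K κ R A g₂ G hK1 hκ0 (by linarith) hKR hA hg₂ hB₂ hG).trans (le_of_eq ?_)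
    rw [hI]; ring_nf
  -- the three parts
  have key : F ≤ (ENNReal.ofReal Ca * S₁ +
      ENNReal.ofReal (Cb * K ^ (γ / 2) * (K ^ (1 + m * τ)) ^ ((2 + x) / 2 - 1)) * S₂ +
      ENNReal.ofReal C₃ * W) + ENNReal.ofReal (1 / 2) * F := by
    rw [hF, SX]
    refine iSup₂_le fun X hX => ?_
    rw [← SX]
    let pA : Z m → Prop := fun z => ∃ η₁ η₂ : E m, ∀ k ∈ Sg β N K G (cb (K ^ 2) z),
      ‖ctr K⁻¹ k - η₁‖ ≤ K₁⁻¹ ∨ ‖ctr K⁻¹ k - η₂‖ ≤ K₁⁻¹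
    let pB : Z m → Prop := fun z => ((Sg β N K G (cb (K ^ 2) z)).card : ℝ) ≤ K ^ (1 + m * τ)
    have hsub : ∀ Y ⊆ X, Sep Y := fun Y hY z hz z' hz' hne => hX z (hY hz) z' (hY hz') hne
    have eA := ha K₁ K G (X.filter pA) hK₁ hKK1 hTC hs1 (hsub _ (Finset.filter_subset _ _))
      (fun z hz => (Finset.mem_filter.1 hz).2)
    have eB := hb K κ R (K ^ (1 + m * τ)) G ((X.filter fun z => ¬ pA z).filter pB) hK1 hKR hκ0 hκ
      (Real.one_le_rpow hK1 (by positivity)) hTC hsup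
      (hsub _ ((Finset.filter_subset _ _).trans (Finset.filter_subset _ _)))
      (fun z hz => (Finset.mem_filter.1 hz).2)
    have eC := hc3 G ((X.filter fun z => ¬ pA z).filter fun z => ¬ pB z)
      (fun k => Ind (K ^ (τ - 1)) (fun i => ctr K⁻¹ (k i))) W hTC hs2
      (hsub _ ((Finset.filter_subset _ _).trans (Finset.filter_subset _ _)))
      (fun z hz => by
        obtain ⟨hz1, hzB⟩ := Finset.mem_filter.1 hz
        obtain ⟨-, hzA⟩ := Finset.mem_filter.1 hz1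
        rcases hg K (Sg β N K G (cb (K ^ 2) z)) hKK0 (Finset.filter_subset _ _) with h | h | h
        · exact absurd h hzA
        · exact absurd h hzB
        · obtain ⟨k, hk, hI⟩ := h
          exact ⟨k, hI, hk⟩)
      (fun k hk hQ y hy Y hY => hW k hk hQ y (fun i => (hy i).trans (by linarith)) Y hY)
    have hsplit : ∑ z ∈ X, ‖TF G z‖ₑ ^ (2 + x) = ∑ z ∈ X.filter pA, ‖TF G z‖ₑ ^ (2 + x) +
        (∑ z ∈ (X.filter fun z => ¬ pA z).filter pB, ‖TF G z‖ₑ ^ (2 + x) +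
        ∑ z ∈ (X.filter fun z => ¬ pA z).filter fun z => ¬ pB z, ‖TF G z‖ₑ ^ (2 + x)) := by
      rw [Finset.sum_filter_add_sum_filter_not, Finset.sum_filter_add_sum_filter_not]
    rw [hsplit]
    have hsmall : ENNReal.ofReal (Ca * (K ^ 4)⁻¹) * SX (2 + x) (TF G) +
        (ENNReal.ofReal (Cb * (K ^ 4)⁻¹) * SX (2 + x) (TF G) +
          ENNReal.ofReal (Cc * (K ^ 4)⁻¹) * SX (2 + x) (TF G)) ≤
        ENNReal.ofReal (1 / 2) * SX (2 + x) (TF G) := by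
      rw [← add_mul, ← add_mul, ← ENNReal.ofReal_add (by positivity) (by positivity),
        ← ENNReal.ofReal_add (by positivity) (by positivity)]
      refine mul_le_mul_left (ENNReal.ofReal_le_ofReal ?_) _
      have hK4 : K ≤ K ^ 4 := le_self_pow₀ hK1 (by norm_num)
      have : Ca * (K ^ 4)⁻¹ + (Cb * (K ^ 4)⁻¹ + Cc * (K ^ 4)⁻¹) = (Ca + Cb + Cc) / K ^ 4 := by
        rw [div_eq_mul_inv]; ring
      rw [this, div_le_iff₀ (by positivity)]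
      linarith
    calc _ ≤ (ENNReal.ofReal Ca * S₁ + ENNReal.ofReal (Ca * (K ^ 4)⁻¹) * SX (2 + x) (TF G)) +
          ((ENNReal.ofReal (Cb * K ^ (γ / 2) *
            (K ^ (1 + m * τ)) ^ ((2 + x) / 2 - 1)) * S₂ +
            ENNReal.ofReal (Cb * (K ^ 4)⁻¹) * SX (2 + x) (TF G)) +
          (ENNReal.ofReal (Cc * (K ^ 4)⁻¹) * SX (2 + x) (TF G) + ENNReal.ofReal C₃ * W)) :=
        add_le_add eA (add_le_add eB eC)
      _ = (ENNReal.ofReal Ca * S₁ +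
          ENNReal.ofReal (Cb * K ^ (γ / 2) *
            (K ^ (1 + m * τ)) ^ ((2 + x) / 2 - 1)) * S₂ + ENNReal.ofReal C₃ * W) +
          (ENNReal.ofReal (Ca * (K ^ 4)⁻¹) * SX (2 + x) (TF G) +
          (ENNReal.ofReal (Cb * (K ^ 4)⁻¹) * SX (2 + x) (TF G) +
            ENNReal.ofReal (Cc * (K ^ 4)⁻¹) * SX (2 + x) (TF G))) := by ring
      _ ≤ _ := by gcongr
  refine (absorb hFt key).trans ?_
  have hexp : K ^ (γ / 2) * (K ^ (1 + m * τ)) ^ ((2 + x) / 2 - 1) * K ^ (2 - m * x) =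
      K ^ (-γ) := by
    rw [← Real.rpow_mul hK0.le, ← Real.rpow_add hK0, ← Real.rpow_add hK0]
    have : γ / 2 + (1 + m * τ) * ((2 + x) / 2 - 1) + (2 - m * x) = -γ := by
      have e1 : (1 + m * τ) * ((2 + x) / 2 - 1) = x / 2 + m * τ * x / 2 := by ring
      rw [e1, hτm, hγ]; ring
    rw [this]
  have b1 : 2 * (ENNReal.ofReal Ca * S₁) ≤
      ENNReal.ofReal (2 * Ca * Cn * K₁ ^ (2 - m * x) * g₁ * I) := by
    calc 2 * (ENNReal.ofReal Ca * S₁) ≤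
        ENNReal.ofReal 2 * (ENNReal.ofReal Ca *
          ENNReal.ofReal (Cn * K₁ ^ (2 - m * x) * g₁ * I)) := by
          rw [ENNReal.ofReal_ofNat]; gcongr
      _ = ENNReal.ofReal (2 * Ca * Cn * K₁ ^ (2 - m * x) * g₁ * I) := by
          rw [← ENNReal.ofReal_mul (by positivity), ← ENNReal.ofReal_mul (by positivity)]
          ring_nf
  have b2 : 2 * (ENNReal.ofReal (Cb * K ^ (γ / 2) *
      (K ^ (1 + m * τ)) ^ ((2 + x) / 2 - 1)) * S₂) ≤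
      ENNReal.ofReal (2 * Cb * Cn * K ^ (-γ) * g₂ * I) := by
    calc _ ≤ ENNReal.ofReal 2 * (ENNReal.ofReal (Cb * K ^ (γ / 2) *
          (K ^ (1 + m * τ)) ^ ((2 + x) / 2 - 1)) *
          ENNReal.ofReal (Cn * K ^ (2 - m * x) * g₂ * I)) := by
          rw [ENNReal.ofReal_ofNat]; gcongr
      _ = ENNReal.ofReal (2 * Cb * Cn * (K ^ (γ / 2) *
          (K ^ (1 + m * τ)) ^ ((2 + x) / 2 - 1) * K ^ (2 - m * x)) * g₂ * I) := by
          rw [← ENNReal.ofReal_mul (by positivity), ← ENNReal.ofReal_mul (by positivity)]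
          ring_nf
      _ = _ := by rw [hexp]
  have b3 : 2 * (ENNReal.ofReal C₃ * W) = ENNReal.ofReal (2 * C₃) * W := by
    rw [ENNReal.ofReal_mul (by norm_num), ENNReal.ofReal_ofNat, mul_assoc]
  calc 2 * (ENNReal.ofReal Ca * S₁ +
      ENNReal.ofReal (Cb * K ^ (γ / 2) * (K ^ (1 + m * τ)) ^ ((2 + x) / 2 - 1)) * S₂ +
      ENNReal.ofReal C₃ * W) = 2 * (ENNReal.ofReal Ca * S₁) +
        2 * (ENNReal.ofReal (Cb * K ^ (γ / 2) *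
          (K ^ (1 + m * τ)) ^ ((2 + x) / 2 - 1)) * S₂) + 2 * (ENNReal.ofReal C₃ * W) := by ring
    _ ≤ ENNReal.ofReal (2 * Ca * Cn * K₁ ^ (2 - m * x) * g₁ * I) +
        ENNReal.ofReal (2 * Cb * Cn * K ^ (-γ) * g₂ * I) +
        ENNReal.ofReal (2 * C₃) * W := by rw [b3]; gcongr
    _ = _ := by
        rw [← ENNReal.ofReal_add (by positivity) (by positivity), hI]
        ring_nf

end Pool.Agent.H82.G4.NB4x
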