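import Pool.Agent.H82.G4.Defs

/-!
Theorem G (MP_ee74d2_an), group G4: targets of the narrow side of the four-broad argument.
-/

set_option autoImplicit false

namespace Pool.Agent.H82.G4

open MeasureTheory Set
open Pool.Agent.H83.G
open Pool.Agent.H22.G4 (nv Ind)
open scoped ENNReal NNReal RealInnerProductSpace

/-! ### sums over separated sets -/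

/-- SXB: suprema on the cells -/
def T_SXB : Prop := ∀ (m : ℕ) (P : ℝ), 0 < P → ∃ C : ℝ≥0, ∀ (K : ℝ) (f : Z m → ℂ), 1 ≤ K →
  ∑' j : Zi m, Mj K f j ^ P ≤ C * SX P f

/-- SXF: weighted suprema far from the cells -/
def T_SXF : Prop := ∀ (m N : ℕ) (P : ℝ), m + 3 ≤ N → 1 ≤ P → ∃ C : ℝ, 0 < C ∧
  ∀ (K D : ℝ) (f : Z m → ℂ), 1 ≤ K → 0 ≤ D →
  ∑' j : Zi m, aw N K D f j ^ P ≤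
    ENNReal.ofReal (C * ((1 + D) ^ (N - (m + 3)))⁻¹) * SX P f

/-- SXI: integrals -/
def T_SXI : Prop := ∀ (m : ℕ) (P : ℝ), 0 < P → ∃ C : ℝ≥0, ∀ f : Z m → ℂ,
  ∫⁻ z, ‖f z‖ₑ ^ P ≤ C * SX P f

/-- SXK: cap multipliers -/
def T_SXK : Prop := ∀ (m : ℕ) (P : ℝ) (β : E m → ℂ), 1 ≤ P → IsPU β → ∃ C : ℝ≥0,
  ∀ (η : E m) (s : ℝ) (G : Z m → ℂ), 0 < s → TC G →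
  (∀ ζ, G ζ ≠ 0 → 1 / 4 ≤ ζ.1 ∧ ζ.1 ≤ 8) → SX P (TP β η s G) ≤ C * SX P (TF G)

/-- SXN: finiteness -/
def T_SXN : Prop := ∀ (m : ℕ) (P : ℝ) (G : Z m → ℂ), 1 ≤ P → TC G → SX P (TF G) < ⊤

/-! ### caps -/

open scoped Classical in
/-- SIG: a large cap is controlled by the weighted suprema of the small caps near it -/
def T_SIG : Prop := ∀ (m N : ℕ) (β : E m → ℂ), IsPU β → ∃ C : ℝ≥0,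
  ∀ (K₁ K : ℝ) (G : Z m → ℂ) (j : Zi m) (z : Z m) (k' : Fin m → ℤ), 1 ≤ K₁ → K₁ ≤ K → TC G →
  (∀ ζ, G ζ ≠ 0 → 1 / 2 ≤ ζ.1 ∧ ζ.1 ≤ 6 ∧ ‖ζ.2.1‖ ≤ 3 / 2 * ζ.1) →
  ‖K⁻¹ ^ 2 • z - zc j‖ ≤ (m : ℝ) + 1 → k' ∈ Ks m K₁⁻¹ →
  ‖uk β K₁ G k' z‖ₑ ≤
    C * ∑ k ∈ (Ks m K⁻¹).filter (fun k => ‖ctr K⁻¹ k - ctr K₁⁻¹ k'‖ ≤ 2 / K₁),
      aw N K 0 (uk β K G k) j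

/-- DCL: `ℓ²` decoupling of a set of caps of radius `1/K` near the cell `j` -/
def T_DCL : Prop := ∀ (m N : ℕ) (P ε : ℝ) (β : E m → ℂ), 1 ≤ m → m + 3 ≤ N → 2 ≤ P →
  m * (P - 2) < 4 → 0 < ε → IsPU β → ∃ C : ℝ, 0 < C ∧
  ∀ (K κ R : ℝ) (G : Z m → ℂ) (S : Finset (Fin m → ℤ)) (j : Zi m), 1 ≤ K → K ^ 2 ≤ R → 0 ≤ κ →
  κ ≤ 3 / 8 → TC G → (∀ ζ, G ζ ≠ 0 → ζ ∈ Rg m κ R⁻¹) → S ⊆ Ks m K⁻¹ →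
  ∫⁻ z, ‖∑ k ∈ S, uk β K G k z‖ₑ ^ P * ENNReal.ofReal (wt N (K⁻¹ ^ 2 • z - zc j)) ≤
    ENNReal.ofReal (C * K ^ ε * (S.card : ℝ) ^ (P / 2 - 1)) *
      ∑ k ∈ S, ∫⁻ z, ‖uk β K G k z‖ₑ ^ P * ENNReal.ofReal (wt N (K⁻¹ ^ 2 • z - zc j))

/-- NRS: rescaling of all the caps of radius `1/K` -/
def T_NRS : Prop := ∀ (m L : ℕ) (x : ℝ) (β : E m → ℂ), 1 ≤ m → 0 < x → IsPU β → ∃ C : ℝ, 0 < C ∧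
  ∀ (K κ R A g : ℝ) (G : Z m → ℂ), 1 ≤ K → 0 ≤ κ → κ ≤ 1 / 2 → K ^ 2 ≤ R → 0 < A → 0 ≤ g →
  Bds m L x κ (R / K ^ 2) g → Cls L κ R A G →
  ∑ k ∈ Ks m K⁻¹, SX (2 + x) (uk β K G k) ≤
    ENNReal.ofReal (C * K ^ (2 - m * x) * g * A ^ x * R ^ (m * x / 2 - 1) * ∫ ζ, ‖G ζ‖ ^ 2)

/-- QNT: a weighted supremum is attained, up to a constant, at a lattice point near the cell, or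
comes from far away -/
def T_QNT : Prop := ∀ (m N : ℕ) (D₀ : ℝ), ∃ c C : ℝ, 0 < c ∧ 1 ≤ C ∧
  ∀ (K D : ℝ) (G : Z m → ℂ) (j : Zi m), 1 ≤ K → 1 ≤ D → TC G → (∀ ζ, G ζ ≠ 0 → ‖ζ‖ ≤ D₀) →
  aw N K 0 (TF G) j ≤ 2 * aw N K D (TF G) j ∨
  ∃ l : Zi m, ‖zc l‖ ≤ C * D * K ^ 2 ∧
    aw N K 0 (TF G) j ≤ ENNReal.ofReal C * ‖TF G (K ^ 2 • zc j + c • zc l)‖ₑ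

/-! ### the three alternatives for the cells -/

/-- PTA: the significant caps are near two directions -/
def T_PTA : Prop := ∀ (m N : ℕ) (P : ℝ) (β : E m → ℂ), 1 ≤ m → 2 ≤ P → IsPU β → ∃ C : ℝ, 0 < C ∧
  ∀ (K₁ K : ℝ) (G : Z m → ℂ) (X : Finset (Z m)), 1 ≤ K₁ → K₁ ≤ K → TC G →
  (∀ ζ, G ζ ≠ 0 → 1 / 2 ≤ ζ.1 ∧ ζ.1 ≤ 6 ∧ ‖ζ.2.1‖ ≤ 3 / 2 * ζ.1) → Sep X →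
  (∀ z ∈ X, ∃ η₁ η₂ : E m, ∀ k ∈ Sg β N K G (cb (K ^ 2) z),
    ‖ctr K⁻¹ k - η₁‖ ≤ K₁⁻¹ ∨ ‖ctr K⁻¹ k - η₂‖ ≤ K₁⁻¹) →
  ∑ z ∈ X, ‖TF G z‖ₑ ^ P ≤ ENNReal.ofReal C * ∑ k ∈ Ks m K₁⁻¹, SX P (uk β K₁ G k) +
    ENNReal.ofReal (C * (K ^ 4)⁻¹) * SX P (TF G)

/-- PTB: there are few significant caps -/
def T_PTB : Prop := ∀ (m N : ℕ) (P ε : ℝ) (β : E m → ℂ), 1 ≤ m → m + 3 ≤ N → 2 ≤ P →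
  m * (P - 2) < 4 → 0 < ε → IsPU β → ∃ C : ℝ, 0 < C ∧
  ∀ (K κ R Λ : ℝ) (G : Z m → ℂ) (X : Finset (Z m)), 1 ≤ K → K ^ 2 ≤ R → 0 ≤ κ → κ ≤ 3 / 8 →
  1 ≤ Λ → TC G → (∀ ζ, G ζ ≠ 0 → ζ ∈ Rg m κ R⁻¹) → Sep X →
  (∀ z ∈ X, ((Sg β N K G (cb (K ^ 2) z)).card : ℝ) ≤ Λ) →
  ∑ z ∈ X, ‖TF G z‖ₑ ^ P ≤
    ENNReal.ofReal (C * K ^ ε * Λ ^ (P / 2 - 1)) * ∑ k ∈ Ks m K⁻¹, SX P (uk β K G k) +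
    ENNReal.ofReal (C * (K ^ 4)⁻¹) * SX P (TF G)

/-- PTC: there are `n` significant caps with a property -/
def T_PTC : Prop := ∀ (m n : ℕ) (P : ℝ) (β : E m → ℂ), 1 ≤ m → 2 ≤ P → IsPU β →
  ∃ N₀ : ℕ, ∀ N : ℕ, N₀ ≤ N → ∃ C : ℝ, 0 < C ∧ ∀ K : ℝ, 1 ≤ K → ∃ C₃ : ℝ, 1 ≤ C₃ ∧
  ∀ (G : Z m → ℂ) (X : Finset (Z m)) (Q : (Fin n → Fin m → ℤ) → Prop) (W : ℝ≥0∞), TC G →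
  (∀ ζ, G ζ ≠ 0 → 1 / 2 ≤ ζ.1 ∧ ζ.1 ≤ 6 ∧ ‖ζ‖ ≤ 10) → Sep X →
  (∀ z ∈ X, ∃ k : Fin n → Fin m → ℤ, Q k ∧ ∀ i, k i ∈ Sg β N K G (cb (K ^ 2) z)) →
  (∀ k : Fin n → Fin m → ℤ, (∀ i, k i ∈ Ks m K⁻¹) → Q k → ∀ y : Fin n → Z m,
    (∀ i, ‖y i‖ ≤ C₃) → ∀ Y : Finset (Z m), Sep Y →
    ∑ z ∈ Y, (⨅ i, ‖uk β K G (k i) (z + y i)‖ₑ) ^ P ≤ W) →
  ∑ z ∈ X, ‖TF G z‖ₑ ^ P ≤ ENNReal.ofReal (C * (K ^ 4)⁻¹) * SX P (TF G) + ENNReal.ofReal C₃ * W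

/-! ### geometry of the directions -/

/-- GE1: the fourth null covector is near the span of three separated ones -/
def T_GE1 : Prop := ∀ (m : ℕ) (B K₁ : ℝ), 1 ≤ B → 1 ≤ K₁ → ∃ C : ℝ, 1 ≤ C ∧
  ∀ (ρ : ℝ) (η : Fin 4 → E m), 0 < ρ → (∀ i, ‖η i‖ ≤ B) → K₁⁻¹ ≤ ‖η 0 - η 1‖ →
  K₁⁻¹ ≤ ‖η 0 - η 2‖ → K₁⁻¹ ≤ ‖η 1 - η 2‖ → ¬ Ind ρ η →
  ∃ a : Fin 3 → ℝ, (∀ i, |a i| ≤ C) ∧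
    ‖nv (η 3) - (a 0 • nv (η 0) + a 1 • nv (η 1) + a 2 • nv (η 2))‖ ≤ C * ρ

/-- GE2: the inverted point is near a line -/
def T_GE2 : Prop := ∀ (m : ℕ) (B r C₀ : ℝ), 1 ≤ B → 0 < r → 0 ≤ C₀ → ∃ C : ℝ, 1 ≤ C ∧
  ∀ (ρ : ℝ) (η₀ η₁ η₂ η : E m) (a₀ a₁ a₂ : ℝ), 0 < ρ → ‖η₀‖ ≤ B → ‖η₁‖ ≤ B → ‖η₂‖ ≤ B →
  ‖η‖ ≤ B → r ≤ ‖η₁ - η₀‖ → r ≤ ‖η₂ - η₀‖ → r ≤ ‖η - η₀‖ → |a₀| ≤ C₀ → |a₁| ≤ C₀ → |a₂| ≤ C₀ →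
  ‖nv η - (a₀ • nv η₀ + a₁ • nv η₁ + a₂ • nv η₂)‖ ≤ C₀ * ρ →
  ∃ t : ℝ, |t| ≤ C ∧
    ‖(‖η - η₀‖ ^ 2)⁻¹ • (η - η₀) - ((‖η₁ - η₀‖ ^ 2)⁻¹ • (η₁ - η₀) +
      t • ((‖η₂ - η₀‖ ^ 2)⁻¹ • (η₂ - η₀) - (‖η₁ - η₀‖ ^ 2)⁻¹ • (η₁ - η₀)))‖ ≤ C * ρ

/-- GE3: caps whose inverted centres are near a line -/
def T_GE3 : Prop := ∀ (m : ℕ) (B r C₀ : ℝ), 1 ≤ m → 1 ≤ B → 0 < r → 1 ≤ C₀ → ∃ C : ℝ, 0 < C ∧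
  ∀ (K ρ : ℝ) (η₀ p₁ p₂ : E m) (J : Finset (Fin m → ℤ)), 1 ≤ K → K⁻¹ ≤ ρ → ρ ≤ 1 → ‖η₀‖ ≤ B →
  ‖p₁‖ ≤ B → ‖p₂‖ ≤ B → (∀ k ∈ J, ‖ctr K⁻¹ k‖ ≤ B ∧ r ≤ ‖ctr K⁻¹ k - η₀‖ ∧
    ∃ t : ℝ, |t| ≤ C₀ ∧
      ‖(‖ctr K⁻¹ k - η₀‖ ^ 2)⁻¹ • (ctr K⁻¹ k - η₀) - (p₁ + t • (p₂ - p₁))‖ ≤ C₀ * ρ) →
  (J.card : ℝ) ≤ C * ρ ^ ((m : ℝ) - 1) * K ^ m

/-- GEO: near two directions, or few caps, or four transversal caps -/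
def T_GEO : Prop := ∀ K₁ : ℝ, 1 ≤ K₁ → ∃ K₀ : ℝ, 1 ≤ K₀ ∧ ∀ (K : ℝ) (S : Finset (Fin 3 → ℤ)),
  K₀ ≤ K → S ⊆ Ks 3 K⁻¹ →
  (∃ η₁ η₂ : E 3, ∀ k ∈ S, ‖ctr K⁻¹ k - η₁‖ ≤ K₁⁻¹ ∨ ‖ctr K⁻¹ k - η₂‖ ≤ K₁⁻¹) ∨
  (S.card : ℝ) ≤ K ^ (6 / 5 : ℝ) ∨
  ∃ k : Fin 4 → Fin 3 → ℤ, (∀ i, k i ∈ S) ∧
    Ind (K ^ (-(19 / 20) : ℝ)) (fun i => ctr K⁻¹ (k i))

/-! ### the result -/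

/-- NB4: narrow or four-broad -/
def T_NB4 : Prop := ∀ (L : ℕ) (x : ℝ) (β : E 3 → ℂ), 5 / 6 < x → x < 4 / 3 → IsPU β →
  ∃ C₁ : ℝ, 0 < C₁ ∧ ∀ K₁ : ℝ, 1 ≤ K₁ → ∃ C₂ K₀ : ℝ, 0 < C₂ ∧ K₁ ≤ K₀ ∧ ∀ K : ℝ, K₀ ≤ K →
  ∃ C₃ : ℝ, 1 ≤ C₃ ∧ ∀ (κ R A g₁ g₂ : ℝ) (G : Z 3 → ℂ) (W : ℝ≥0∞), 0 ≤ κ → κ ≤ 3 / 8 →
  K ^ 2 ≤ R → 0 < A → 0 ≤ g₁ → 0 ≤ g₂ → Bds 3 L x κ (R / K₁ ^ 2) g₁ →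
  Bds 3 L x κ (R / K ^ 2) g₂ → Cls L κ R A G →
  (∀ k : Fin 4 → Fin 3 → ℤ, (∀ i, k i ∈ Ks 3 K⁻¹) →
    Ind (K ^ (-(19 / 20) : ℝ)) (fun i => ctr K⁻¹ (k i)) → ∀ y : Fin 4 → Z 3,
    (∀ i, ‖y i‖ ≤ C₃) → ∀ Y : Finset (Z 3), Sep Y →
    ∑ z ∈ Y, (⨅ i, ‖uk β K G (k i) (z + y i)‖ₑ) ^ (2 + x) ≤ W) →
  SX (2 + x) (TF G) ≤
    ENNReal.ofReal ((C₁ * K₁ ^ (2 - 3 * x) * g₁ + C₂ * K ^ (1 - 6 * x / 5) * g₂) * A ^ x *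
      R ^ (3 * x / 2 - 1) * ∫ ζ, ‖G ζ‖ ^ 2) + ENNReal.ofReal C₃ * W

end Pool.Agent.H82.G4
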