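import Pool.Agent.H82.G4.Targets

/-!
Theorem G (MP_ee74d2_an), group G4: the narrow side for all `m ≥ 2`, `x > 4 / (2 m - 1)`.
-/

set_option autoImplicit false

namespace Pool.Agent.H82.G4

open MeasureTheory Set
open Pool.Agent.H83.G
open Pool.Agent.H22.G4 (nv Ind)
open scoped ENNReal NNReal RealInnerProductSpace

/-- GEOx: near two directions, or few caps, or four transversal caps -/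
def T_GEOx : Prop := ∀ (m : ℕ) (τ K₁ : ℝ), 1 ≤ m → 0 < τ → τ < 1 → 1 ≤ K₁ → ∃ K₀ : ℝ, 1 ≤ K₀ ∧
  ∀ (K : ℝ) (S : Finset (Fin m → ℤ)), K₀ ≤ K → S ⊆ Ks m K⁻¹ →
  (∃ η₁ η₂ : E m, ∀ k ∈ S, ‖ctr K⁻¹ k - η₁‖ ≤ K₁⁻¹ ∨ ‖ctr K⁻¹ k - η₂‖ ≤ K₁⁻¹) ∨
  (S.card : ℝ) ≤ K ^ (1 + m * τ) ∨
  ∃ k : Fin 4 → Fin m → ℤ, (∀ i, k i ∈ S) ∧ Ind (K ^ (τ - 1)) (fun i => ctr K⁻¹ (k i))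

/-- NB4x: narrow or four-broad -/
def T_NB4x : Prop := ∀ (m L : ℕ) (x : ℝ) (β : E m → ℂ), 1 ≤ m → 0 < x → 2 + x / 2 < m * x →
  m * x < 4 → IsPU β → ∃ C₁ γ τ : ℝ, 0 < C₁ ∧ 0 < γ ∧ 0 < τ ∧ τ < 1 ∧
  ∀ K₁ : ℝ, 1 ≤ K₁ → ∃ C₂ K₀ : ℝ, 0 < C₂ ∧ K₁ ≤ K₀ ∧ ∀ K : ℝ, K₀ ≤ K →
  ∃ C₃ : ℝ, 1 ≤ C₃ ∧ ∀ (κ R A g₁ g₂ : ℝ) (G : Z m → ℂ) (W : ℝ≥0∞), 0 ≤ κ → κ ≤ 3 / 8 →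
  K ^ 2 ≤ R → 0 < A → 0 ≤ g₁ → 0 ≤ g₂ → Bds m L x κ (R / K₁ ^ 2) g₁ →
  Bds m L x κ (R / K ^ 2) g₂ → Cls L κ R A G →
  (∀ k : Fin 4 → Fin m → ℤ, (∀ i, k i ∈ Ks m K⁻¹) →
    Ind (K ^ (τ - 1)) (fun i => ctr K⁻¹ (k i)) → ∀ y : Fin 4 → Z m,
    (∀ i, ‖y i‖ ≤ C₃) → ∀ Y : Finset (Z m), Sep Y →
    ∑ z ∈ Y, (⨅ i, ‖uk β K G (k i) (z + y i)‖ₑ) ^ (2 + x) ≤ W) →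
  SX (2 + x) (TF G) ≤
    ENNReal.ofReal ((C₁ * K₁ ^ (2 - m * x) * g₁ + C₂ * K ^ (-γ) * g₂) * A ^ x *
      R ^ (m * x / 2 - 1) * ∫ ζ, ‖G ζ‖ ^ 2) + ENNReal.ofReal C₃ * W

end Pool.Agent.H82.G4
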